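import Mathlib

/-! The tent function of a labelled graph with consecutive edge sums. -/

namespace Pool.Agent.FS.LongEdge837

open Finset

/-- the tent over the interval with ends `a`, `b` -/
def tent (a b x : ℤ) : ℤ := max 0 (min (x - min a b) (max a b - x))

/-- indicator of `a ≤ x` -/
def ind (a x : ℤ) : ℤ := if a ≤ x then 1 else 0

theorem tent_nonneg (a b x : ℤ) : 0 ≤ tent a b x := le_max_left _ _

theorem tent_step (a b x : ℤ) (h : a ≠ b) :
    tent a b (x + 1) - tent a b x =
      ind a x + ind b x - ind (a + b) (2 * x) - ind (a + b) (2 * x + 1) := by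
  unfold tent ind
  split_ifs <;> omega

/-- indicator of the window `x - D < a < x` -/
def win (D x a : ℤ) : ℤ := if x - D < a ∧ a < x then 1 else 0

theorem win_nonneg (D x a : ℤ) : 0 ≤ win D x a := by
  unfold win
  split_ifs <;> omega

theorem tent_le (a b x D : ℤ) (hD : 0 ≤ D) (h : |a - b| ≤ D) :
    2 * tent a b x ≤ D * (win D x a + win D x b) := by
  rw [abs_le] at h
  unfold tent win
  split_ifs <;> simp only [mul_add, mul_one, mul_zero] <;> omega

variable {V E : Type} [Fintype V] [Fintype E] [DecidableEq V]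

/-- number of edge ends at `v` -/
def dg (a b : E → V) (v : V) : ℤ :=
  ((univ.filter fun e => a e = v).card : ℤ) + ((univ.filter fun e => b e = v).card : ℤ)

theorem sum_end (a : E → V) (φ : V → ℤ) :
    ∑ e, φ (a e) = ∑ v, ((univ.filter fun e => a e = v).card : ℤ) * φ v := by
  rw [← Finset.sum_fiberwise univ a (fun e => φ (a e))]
  refine Finset.sum_congr rfl fun v _ => ?_
  rw [Finset.sum_congr rfl (g := fun _ => φ v) (fun e he => by rw [(Finset.mem_filter.1 he).2])]
  simp

theorem sum_ends (a b : E → V) (φ : V → ℤ) :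
    ∑ e, (φ (a e) + φ (b e)) = ∑ v, dg a b v * φ v := by
  rw [Finset.sum_add_distrib, sum_end, sum_end, ← Finset.sum_add_distrib]
  refine Finset.sum_congr rfl fun v _ => ?_
  unfold dg
  ring

theorem win_count (g : V → ℤ) (hg : Function.Injective g) (D x : ℤ) (hD : 1 ≤ D) :
    ∑ v, win D x (g v) ≤ D - 1 := by
  have h1 : ∑ v, win D x (g v) =
      ((univ.filter fun v => x - D < g v ∧ g v < x).card : ℤ) := by
    unfold win
    rw [Finset.sum_boole]
  have h2 : (univ.filter fun v => x - D < g v ∧ g v < x).card ≤ (Finset.Ioo (x - D) x).card := by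
    refine Finset.card_le_card_of_injOn g (fun v hv => ?_) (fun u _ v _ h => hg h)
    simpa using hv
  rw [Int.card_Ioo] at h2
  rw [h1]
  omega

theorem climb (W : ℤ → ℤ) (x : ℤ) (L : ℕ) (h : ∀ i : ℕ, i < L → 1 ≤ W (x + i + 1) - W (x + i)) :
    W x + L ≤ W (x + L) := by
  induction L with
  | zero => simp
  | succ L ih =>
    have h1 := ih fun i hi => h i (by omega)
    have h2 := h L (by omega)
    push_cast
    rw [← add_assoc x]
    omega

theorem fall (W : ℤ → ℤ) (x : ℤ) (L : ℕ) (h : ∀ i : ℕ, i < L → W (x + i + 1) - W (x + i) ≤ -1) :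
    W (x + L) + L ≤ W x := by
  have := climb (fun y => -W y) x L fun i hi => by have := h i hi; omega
  omega

/-- The abstract bound. `B x` is the degree deficiency of the vertices with label at most `x`. -/
theorem core (a b : E → V) (g : V → ℤ) (hg : Function.Injective g) (s D x0 x1 : ℤ) (hD1 : 1 ≤ D)
    (hV : ∀ x, x0 ≤ x → x ≤ x1 → ∑ v, ind (g v) x = x)
    (hE : ∀ y, 2 * x0 ≤ y → y ≤ 2 * x1 + 1 → ∑ e, ind (g (a e) + g (b e)) y = y - s + 1)
    (hne : ∀ e, a e ≠ b e) (hD : ∀ e, |g (a e) - g (b e)| ≤ D) (h4 : ∀ v, dg a b v ≤ 4)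
    (par : ∀ y1 y2, y1 ≤ y2 →
      ∑ v, (4 - dg a b v) * ind (g v) y1 = ∑ v, (4 - dg a b v) * ind (g v) y2 →
      Odd (∑ v, (4 - dg a b v) * ind (g v) y1) → y2 - y1 + 1 ≤ D) :
    x1 - x0 + 1 ≤ 4 * D ^ 2 - 3 * D := by
  set W : ℤ → ℤ := fun x => ∑ e, tent (g (a e)) (g (b e)) x with hW
  set B : ℤ → ℤ := fun x => ∑ v, (4 - dg a b v) * ind (g v) x with hB
  have W0 : ∀ x, 0 ≤ W x := fun x => Finset.sum_nonneg fun e _ => tent_nonneg _ _ _
  have W1 : ∀ x, W x ≤ 2 * D * (D - 1) := by
    intro x
    have h1 : 2 * W x ≤ D * ∑ e, (win D x (g (a e)) + win D x (g (b e))) := by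
      simp only [hW]
      rw [Finset.mul_sum, Finset.mul_sum]
      exact Finset.sum_le_sum fun e _ => tent_le _ _ _ _ (by omega) (hD e)
    rw [sum_ends a b fun v => win D x (g v)] at h1
    have h2 : ∑ v, dg a b v * win D x (g v) ≤ 4 * ∑ v, win D x (g v) := by
      rw [Finset.mul_sum]
      exact Finset.sum_le_sum fun v _ => mul_le_mul_of_nonneg_right (h4 v) (win_nonneg _ _ _)
    have h3 := win_count g hg D x hD1
    nlinarith
  have step : ∀ x, x0 ≤ x → x ≤ x1 → W (x + 1) - W x = 2 * s - 3 - B x := by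
    intro x h0 h1
    have e1 : W (x + 1) - W x = ∑ e, (ind (g (a e)) x + ind (g (b e)) x) -
        ∑ e, ind (g (a e) + g (b e)) (2 * x) - ∑ e, ind (g (a e) + g (b e)) (2 * x + 1) := by
      simp only [hW]
      rw [← Finset.sum_sub_distrib, ← Finset.sum_sub_distrib, ← Finset.sum_sub_distrib]
      exact Finset.sum_congr rfl fun e _ => tent_step _ _ _ fun h => hne e (hg h)
    have e2 : B x = 4 * ∑ v, ind (g v) x - ∑ v, dg a b v * ind (g v) x := by
      simp only [hB]
      rw [Finset.mul_sum, ← Finset.sum_sub_distrib]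
      exact Finset.sum_congr rfl fun v _ => by ring
    rw [e1, sum_ends a b fun v => ind (g v) x, hE _ (by omega) (by omega),
      hE _ (by omega) (by omega), e2, hV x h0 h1]
    ring
  have mono : ∀ x y, x ≤ y → B x ≤ B y := by
    intro x y hxy
    refine Finset.sum_le_sum fun v _ => mul_le_mul_of_nonneg_left ?_ (by have := h4 v; omega)
    unfold ind
    split_ifs <;> omega
  by_contra hc
  have hM : 0 ≤ 2 * D * (D - 1) := by nlinarith
  obtain ⟨M, hMe⟩ := Int.eq_ofNat_of_zero_le hM
  have hlen : 2 * (M : ℤ) + D ≤ x1 - x0 := by rw [← hMe]; nlinarith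
  have c1 : 2 * s - 3 - B (x0 + M) ≤ 0 := by
    by_contra h
    have := climb W x0 (M + 1) fun i hi => by
      rw [step _ (by omega) (by omega)]
      have := mono (x0 + i) (x0 + M) (by omega)
      omega
    have a1 := W0 x0
    have a2 := W1 (x0 + ((M + 1 : ℕ) : ℤ))
    push_cast at this a2
    omega
  have c2 : 0 ≤ 2 * s - 3 - B (x1 - M) := by
    by_contra h
    have := fall W (x1 - M) (M + 1) fun i hi => by
      rw [step _ (by omega) (by omega)]
      have := mono (x1 - M) (x1 - M + i) (by omega)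
      omega
    have a1 := W0 (x1 - M + ((M + 1 : ℕ) : ℤ))
    have a2 := W1 (x1 - M)
    push_cast at this a1
    omega
  have c3 := mono (x0 + M) (x1 - M) (by omega)
  have c4 : B (x0 + M) = 2 * s - 3 := by omega
  have := par (x0 + M) (x1 - M) (by omega) (by change B _ = B _; omega)
    (by change Odd (B _); rw [c4]; exact ⟨s - 2, by ring⟩)
  omega

end Pool.Agent.FS.LongEdge837
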