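import Pool.Agent.FS.LongEdge.Core

/-! From a super edge-magic labeling of a graph of maximum degree at most four to the core bound. -/

namespace Pool.Agent.FS.LongEdge837

open Finset

theorem count_le {X : Type} [Fintype X] (h : X → ℤ) (c d y : ℤ) (hi : Function.Injective h)
    (hr : ∀ z, (∃ x, h x = z) ↔ c ≤ z ∧ z ≤ d) (h1 : c - 1 ≤ y) (h2 : y ≤ d) :
    ∑ x, ind (h x) y = y - c + 1 := by
  have e1 : ∑ x, ind (h x) y = ((univ.filter fun x => h x ≤ y).card : ℤ) := by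
    unfold ind
    rw [Finset.sum_boole]
  have e2 : (univ.filter fun x => h x ≤ y).card = (Finset.Icc c y).card := by
    rw [← Finset.card_image_of_injective _ hi]
    congr 1
    ext z
    simp only [mem_image, mem_filter, mem_univ, true_and, mem_Icc]
    constructor
    · rintro ⟨x, hx, rfl⟩
      exact ⟨((hr _).1 ⟨x, rfl⟩).1, hx⟩
    · rintro ⟨h3, h4⟩
      obtain ⟨x, rfl⟩ := (hr z).2 ⟨h3, by omega⟩
      exact ⟨x, h4, rfl⟩
  rw [e1, e2, Int.card_Icc]
  omega

variable {V : Type} (G : SimpleGraph V)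

/-- a first end of an edge -/
noncomputable def ea (e : G.edgeSet) : V := e.1.out.1

/-- the other end of an edge -/
noncomputable def eb (e : G.edgeSet) : V := e.1.out.2

theorem mk_ea_eb (e : G.edgeSet) : s(ea G e, eb G e) = e.1 := by
  unfold ea eb
  exact Quot.out_eq e.1

theorem adj_ea_eb (e : G.edgeSet) : G.Adj (ea G e) (eb G e) := by
  rw [← SimpleGraph.mem_edgeSet, mk_ea_eb]
  exact e.2

theorem dg_eq [Fintype V] [DecidableEq V] [DecidableRel G.Adj] (v : V) :
    dg (ea G) (eb G) v = G.degree v := by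
  unfold dg
  rw [← G.card_incidenceFinset_eq_degree, G.incidenceFinset_eq_filter, ← Nat.cast_add,
    ← Finset.card_union_of_disjoint, ← Finset.card_image_of_injective _ Subtype.val_injective]
  · congr 2
    ext e
    simp only [mem_image, mem_union, mem_filter, mem_univ, true_and, SimpleGraph.mem_edgeFinset]
    constructor
    · rintro ⟨e', h, rfl⟩
      refine ⟨e'.2, ?_⟩
      rw [← mk_ea_eb, Sym2.mem_iff]
      exact h.imp Eq.symm Eq.symm
    · rintro ⟨he, h⟩
      refine ⟨⟨e, he⟩, ?_, rfl⟩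
      have := mk_ea_eb G ⟨e, he⟩
      simp only at this
      rw [← this, Sym2.mem_iff] at h
      exact h.imp Eq.symm Eq.symm
  · rw [Finset.disjoint_filter]
    intro e _ h1 h2
    exact (adj_ea_eb G e).ne (h1.trans h2.symm)

theorem graph_core [Fintype V] [DecidableEq V] [DecidableRel G.Adj]
    (f : V ⊕ G.edgeSet → ℕ) (k : ℕ)
    (hf : Set.BijOn f Set.univ (Set.Icc 1 (Nat.card V + Nat.card G.edgeSet)))
    (hr : (Set.range fun v => f (Sum.inl v)) = Set.Icc 1 (Nat.card V))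
    (hk : ∀ u v (h : G.Adj u v), f (Sum.inl u) + f (Sum.inr ⟨s(u, v), h⟩) + f (Sum.inl v) = k)
    (c : ℤ) (hc0 : 0 ≤ c) (hc1 : c < Nat.card V) (h4 : ∀ v, G.degree v ≤ 4)
    (hc : ∑ v, (4 - (G.degree v : ℤ)) = 4 * c)
    (par : ∀ y1 y2 : ℤ, y1 ≤ y2 →
      ∑ v, (4 - (G.degree v : ℤ)) * ind (f (Sum.inl v)) y1 =
        ∑ v, (4 - (G.degree v : ℤ)) * ind (f (Sum.inl v)) y2 →
      Odd (∑ v, (4 - (G.degree v : ℤ)) * ind (f (Sum.inl v)) y1) →
      ∃ u v, G.Adj u v ∧ (f (Sum.inl u) : ℤ) ≤ y1 ∧ y2 < f (Sum.inl v)) :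
    ∃ u v, G.Adj u v ∧
      (Nat.card V : ℤ) - 2 * c + 3 * |(f (Sum.inl u) : ℤ) - f (Sum.inl v)| <
        4 * ((f (Sum.inl u) : ℤ) - f (Sum.inl v)) ^ 2 := by
  set p := Nat.card V with hp
  set q := Nat.card G.edgeSet with hq
  have finj : Function.Injective f := Set.injOn_univ.1 hf.injOn
  have ginj : Function.Injective fun v => (f (Sum.inl v) : ℤ) := by
    intro u v h
    simp only at h
    exact Sum.inl_injective (finj (by exact_mod_cast h))
  have hrv : ∀ z : ℕ, (∃ v, f (Sum.inl v) = z) ↔ 1 ≤ z ∧ z ≤ p := by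
    intro z
    have : z ∈ (Set.range fun v => f (Sum.inl v)) ↔ z ∈ Set.Icc 1 p := by rw [hr]
    simpa using this
  have hre : ∀ z : ℕ, (∃ e, f (Sum.inr e) = z) ↔ p + 1 ≤ z ∧ z ≤ p + q := by
    intro z
    constructor
    · rintro ⟨e, rfl⟩
      have h1 := hf.mapsTo (Set.mem_univ (Sum.inr e))
      rw [Set.mem_Icc] at h1
      refine ⟨?_, h1.2⟩
      by_contra h2
      obtain ⟨v, hv⟩ := (hrv _).2 ⟨h1.1, by omega⟩
      exact absurd (finj hv) (by simp)
    · rintro ⟨h1, h2⟩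
      obtain ⟨x, -, hx⟩ := hf.surjOn (show z ∈ Set.Icc 1 (p + q) from ⟨by omega, h2⟩)
      rcases x with v | e
      · have := (hrv z).1 ⟨v, hx⟩
        omega
      · exact ⟨e, hx⟩
  have hsum : ∀ e : G.edgeSet,
      f (Sum.inl (ea G e)) + f (Sum.inr e) + f (Sum.inl (eb G e)) = k := by
    intro e
    have h := hk _ _ (adj_ea_eb G e)
    have e1 : (⟨s(ea G e, eb G e), adj_ea_eb G e⟩ : G.edgeSet) = e := Subtype.ext (mk_ea_eb G e)
    rw [e1] at h
    exact h
  have hpq : (q : ℤ) = 2 * p - 2 * c := by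
    have h1 := sum_ends (ea G) (eb G) fun _ => 1
    simp only [dg_eq, mul_one, Finset.sum_const, Finset.card_univ, nsmul_eq_mul] at h1
    rw [Finset.sum_sub_distrib] at hc
    simp only [Finset.sum_const, Finset.card_univ, nsmul_eq_mul] at hc
    rw [← Nat.card_eq_fintype_card] at h1 hc
    omega
  obtain ⟨e1, he1⟩ := (hre (p + 1)).2 ⟨le_rfl, by omega⟩
  obtain ⟨e2, he2⟩ := (hre (p + q)).2 ⟨by omega, le_rfl⟩
  have bd : ∀ v, 1 ≤ f (Sum.inl v) ∧ f (Sum.inl v) ≤ p := fun v => (hrv _).1 ⟨v, rfl⟩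
  have hs1 : (k : ℤ) - p - q ≤ 2 * c + 1 := by
    have := hsum e1
    have := bd (ea G e1)
    have := bd (eb G e1)
    omega
  have hs2 : 2 ≤ (k : ℤ) - p - q := by
    have := hsum e2
    have := bd (ea G e2)
    have := bd (eb G e2)
    omega
  obtain ⟨e0, -, he0⟩ := Finset.exists_max_image (univ : Finset G.edgeSet)
    (fun e => |(f (Sum.inl (ea G e)) : ℤ) - f (Sum.inl (eb G e))|) ⟨e1, mem_univ _⟩
  set D := |(f (Sum.inl (ea G e0)) : ℤ) - f (Sum.inl (eb G e0))| with hD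
  have hD1 : 1 ≤ D := by
    have : (f (Sum.inl (ea G e0)) : ℤ) ≠ f (Sum.inl (eb G e0)) :=
      fun h => (adj_ea_eb G e0).ne (ginj h)
    have h2 : 0 < D := abs_pos.2 (sub_ne_zero.2 this)
    omega
  have key := core (ea G) (eb G) (fun v => (f (Sum.inl v) : ℤ)) ginj ((k : ℤ) - p - q) D c (p - c)
    hD1 ?_ ?_ (fun e => (adj_ea_eb G e).ne) (fun e => he0 e (mem_univ _)) ?_ ?_
  · refine ⟨ea G e0, eb G e0, adj_ea_eb G e0, ?_⟩
    rw [← sq_abs, ← hD]
    omega
  · intro x h0 h1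
    rw [count_le (fun v => (f (Sum.inl v) : ℤ)) 1 p x ginj ?_ (by omega) (by omega)]
    · ring
    · intro z
      constructor
      · rintro ⟨v, rfl⟩
        have := bd v
        omega
      · rintro ⟨h2, h3⟩
        obtain ⟨v, hv⟩ := (hrv z.toNat).2 ⟨by omega, by omega⟩
        exact ⟨v, by omega⟩
  · intro y h0 h1
    refine count_le (fun e : G.edgeSet => (f (Sum.inl (ea G e)) : ℤ) + f (Sum.inl (eb G e)))
      _ ((k : ℤ) - p - 1) y ?_ ?_ (by omega) (by omega)
    · intro e e' h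
      have a1 := hsum e
      have a2 := hsum e'
      simp only at h
      exact Sum.inr_injective (finj (by omega))
    · intro z
      constructor
      · rintro ⟨e, rfl⟩
        have a1 := hsum e
        have a2 := (hre _).1 ⟨e, rfl⟩
        omega
      · rintro ⟨h2, h3⟩
        obtain ⟨e, he⟩ := (hre ((k : ℤ) - z).toNat).2 ⟨by omega, by omega⟩
        have a1 := hsum e
        exact ⟨e, by omega⟩
  · intro v
    rw [dg_eq]
    exact_mod_cast h4 v
  · intro y1 y2 hy h1 h2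
    simp only [dg_eq] at h1 h2
    obtain ⟨u, v, huv, hu, hv⟩ := par y1 y2 hy h1 h2
    have h3 := he0 ⟨s(u, v), huv⟩ (mem_univ _)
    have h5 := mk_ea_eb G ⟨s(u, v), huv⟩
    simp only [Sym2.eq_iff] at h5
    rw [abs_le] at h3
    rcases h5 with ⟨h6, h7⟩ | ⟨h6, h7⟩ <;> rw [h6, h7] at h3 <;> omega

end Pool.Agent.FS.LongEdge837
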