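import Pool.Agent.FS.LongEdge.Graph

/-! The long edge of a super edge-magic labeling of an even prism. -/

namespace Pool.Agent.FS.LongEdge837

open Finset SimpleGraph

theorem path_degree (n : ℕ) (j : Fin (n + 2)) [Fintype ((pathGraph (n + 2)).neighborSet j)] :
    ((pathGraph (n + 2)).degree j : ℤ) =
      2 - (if j = 0 then 1 else 0) - (if j = Fin.last (n + 1) then 1 else 0) := by
  rw [← card_neighborFinset_eq_degree]
  by_cases h0 : j = 0
  · have : (pathGraph (n + 2)).neighborFinset j = {⟨1, by omega⟩} := by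
      ext x
      simp only [mem_neighborFinset, pathGraph_adj, h0, mem_singleton, Fin.ext_iff, Fin.val_zero]
      omega
    have h1 : j ≠ Fin.last (n + 1) := by
      rw [h0]
      simp [Fin.ext_iff]
    rw [this, if_pos h0, if_neg h1]
    simp
  · by_cases h1 : j = Fin.last (n + 1)
    · have : (pathGraph (n + 2)).neighborFinset j = {⟨n, by omega⟩} := by
        ext x
        have := x.2
        simp only [mem_neighborFinset, pathGraph_adj, h1, mem_singleton, Fin.ext_iff, Fin.val_last]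
        omega
      rw [this, if_neg h0, if_pos h1]
      simp
    · have a0 : j.val ≠ 0 := fun h => h0 (Fin.ext h)
      have a1 : j.val ≠ n + 1 := fun h => h1 (Fin.ext h)
      have a2 := j.2
      have : (pathGraph (n + 2)).neighborFinset j =
          {⟨j.val + 1, by omega⟩, ⟨j.val - 1, by omega⟩} := by
        ext x
        simp only [mem_neighborFinset, pathGraph_adj, mem_insert, mem_singleton, Fin.ext_iff]
        omega
      rw [this, if_neg h0, if_neg h1, Finset.card_pair]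
      · simp
      · simp only [ne_eq, Fin.ext_iff]
        omega

theorem ind_mono (a y1 y2 : ℤ) (h : y1 ≤ y2) : ind a y1 ≤ ind a y2 := by
  unfold ind
  split_ifs <;> omega

theorem row (m : ℕ) (he : Even m) (h : Fin m → ℤ) (y1 y2 : ℤ) (hy : y1 ≤ y2)
    (h1 : ∑ i, ind (h i) y1 = ∑ i, ind (h i) y2) (h2 : Odd (∑ i, ind (h i) y1)) :
    ∃ i i', (cycleGraph m).Adj i i' ∧ h i ≤ y1 ∧ y2 < h i' := by
  have a1 : ∃ i, h i ≤ y1 := by
    by_contra hn
    push Not at hn
    have : ∑ i, ind (h i) y1 = 0 :=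
      Finset.sum_eq_zero fun i _ => by
        unfold ind
        rw [if_neg (not_le.2 (hn i))]
    rw [this] at h2
    exact absurd h2 (by decide)
  have a2 : ∃ i, ¬ h i ≤ y1 := by
    by_contra hn
    push Not at hn
    have : ∑ i, ind (h i) y1 = m := by
      rw [Finset.sum_congr rfl (g := fun _ => (1 : ℤ)) fun i _ => by
        unfold ind
        rw [if_pos (hn i)]]
      simp
    rw [this] at h2
    obtain ⟨r, hr⟩ := he
    obtain ⟨t, ht⟩ := h2
    omega
  obtain ⟨i, hi⟩ := a1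
  obtain ⟨i', hi'⟩ := a2
  obtain ⟨w⟩ := (cycleGraph_preconnected (n := m)) i i'
  obtain ⟨d, -, hd1, hd2⟩ := w.exists_boundary_dart {x | h x ≤ y1} hi hi'
  refine ⟨d.fst, d.snd, d.adj, hd1, ?_⟩
  have a3 := (Finset.sum_eq_sum_iff_of_le fun i _ => ind_mono (h i) y1 y2 hy).1 h1 d.snd
    (mem_univ _)
  have a4 : ¬ h d.snd ≤ y1 := hd2
  unfold ind at a3
  split_ifs at a3 <;> omega

theorem prism_long (m n : ℕ) (he : Even (m + 3))
    (f : (Fin (m + 3) × Fin (n + 2)) ⊕
      ((cycleGraph (m + 3)).boxProd (pathGraph (n + 2))).edgeSet → ℕ) (k : ℕ)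
    (hf : Set.BijOn f Set.univ (Set.Icc 1 (Nat.card (Fin (m + 3) × Fin (n + 2)) +
      Nat.card ((cycleGraph (m + 3)).boxProd (pathGraph (n + 2))).edgeSet)))
    (hr : (Set.range fun v => f (Sum.inl v)) = Set.Icc 1 (Nat.card (Fin (m + 3) × Fin (n + 2))))
    (hk : ∀ u v (h : ((cycleGraph (m + 3)).boxProd (pathGraph (n + 2))).Adj u v),
      f (Sum.inl u) + f (Sum.inr ⟨s(u, v), h⟩) + f (Sum.inl v) = k) :
    ∃ u v, ((cycleGraph (m + 3)).boxProd (pathGraph (n + 2))).Adj u v ∧
      ((m + 3 : ℕ) : ℤ) * (((n + 2 : ℕ) : ℤ) - 1) + 3 * |(f (Sum.inl u) : ℤ) - f (Sum.inl v)| <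
        4 * ((f (Sum.inl u) : ℤ) - f (Sum.inl v)) ^ 2 := by
  classical
  let G := (cycleGraph (m + 3)).boxProd (pathGraph (n + 2))
  have hdeg : ∀ (v : Fin (m + 3) × Fin (n + 2)) [Fintype (G.neighborSet v)],
      (4 - (G.degree v : ℤ)) =
      (if v.2 = 0 then 1 else 0) + (if v.2 = Fin.last (n + 1) then 1 else 0) := by
    intro v _
    have h1 : G.degree v = (cycleGraph (m + 3)).degree v.1 + (pathGraph (n + 2)).degree v.2 :=
      degree_boxProd v
    rw [h1, Nat.cast_add, path_degree, cycleGraph_degree_three_le]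
    push_cast
    ring
  have hsum : ∀ φ : Fin (m + 3) × Fin (n + 2) → ℤ,
      ∑ v, ((if v.2 = 0 then 1 else 0) + (if v.2 = Fin.last (n + 1) then 1 else 0)) * φ v =
      ∑ i, φ (i, 0) + ∑ i, φ (i, Fin.last (n + 1)) := by
    intro φ
    simp only [add_mul, ite_mul, one_mul, zero_mul]
    rw [Fintype.sum_prod_type, ← Finset.sum_add_distrib]
    refine Finset.sum_congr rfl fun i _ => ?_
    rw [Finset.sum_add_distrib]
    simp
  obtain ⟨c, hc⟩ := he
  have hcard : Nat.card (Fin (m + 3) × Fin (n + 2)) = (m + 3) * (n + 2) := by simp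
  have key := graph_core G f k hf hr hk c (by omega) ?_ ?_ ?_ ?_
  · obtain ⟨u, v, huv, hlt⟩ := key
    refine ⟨u, v, huv, ?_⟩
    rw [hcard] at hlt
    have : ((m + 3 : ℕ) : ℤ) = c + c := by exact_mod_cast hc
    rw [Nat.cast_mul, this] at hlt
    rw [this]
    linarith
  · rw [hcard, hc]
    have : 0 < c := by omega
    have : c < (c + c) * (n + 2) := by nlinarith
    exact_mod_cast this
  · have h4 : ∀ (v : Fin (m + 3) × Fin (n + 2)) [Fintype (G.neighborSet v)], G.degree v ≤ 4 := by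
      intro v _
      have := hdeg v
      split_ifs at this <;> omega
    intro v
    have h5 : ∀ i1 i2 : Fintype (G.neighborSet v),
        @SimpleGraph.degree _ G v i1 = @SimpleGraph.degree _ G v i2 :=
      fun i1 i2 => by rw [Subsingleton.elim i1 i2]
    exact (h5 _ _).trans_le (h4 v)
  · have := hsum fun _ => 1
    simp only [mul_one, Finset.sum_const, Finset.card_univ, Fintype.card_fin, nsmul_eq_mul] at this
    simp only [hdeg]
    rw [this, hc]
    push_cast
    ring
  · intro y1 y2 hy h1 h2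
    simp only [hdeg] at h1 h2
    rw [hsum fun v => ind (f (Sum.inl v)) y1] at h1 h2
    rw [hsum fun v => ind (f (Sum.inl v)) y2] at h1
    have m1 : ∑ i, ind (f (Sum.inl (i, 0))) y1 ≤ ∑ i, ind (f (Sum.inl (i, 0))) y2 :=
      Finset.sum_le_sum fun i _ => ind_mono _ _ _ hy
    have m2 : ∑ i, ind (f (Sum.inl (i, Fin.last (n + 1)))) y1 ≤
        ∑ i, ind (f (Sum.inl (i, Fin.last (n + 1)))) y2 :=
      Finset.sum_le_sum fun i _ => ind_mono _ _ _ hy
    rcases Int.even_or_odd (∑ i, ind (f (Sum.inl (i, 0))) y1) with h3 | h3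
    · have h5 : Odd (∑ i, ind (f (Sum.inl (i, Fin.last (n + 1)))) y1) := by
        obtain ⟨a, ha⟩ := h2
        obtain ⟨b, hb⟩ := h3
        exact ⟨a - b, by omega⟩
      obtain ⟨i, i', h6, h7, h8⟩ := row (m + 3) ⟨c, hc⟩
        (fun i => (f (Sum.inl (i, Fin.last (n + 1))) : ℤ)) y1 y2 hy (by omega) h5
      exact ⟨(i, Fin.last (n + 1)), (i', Fin.last (n + 1)), boxProd_adj_left.2 h6, h7, h8⟩
    · obtain ⟨i, i', h6, h7, h8⟩ := row (m + 3) ⟨c, hc⟩
        (fun i => (f (Sum.inl (i, 0)) : ℤ)) y1 y2 hy (by omega) h3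
      exact ⟨(i, 0), (i', 0), boxProd_adj_left.2 h6, h7, h8⟩

end Pool.Agent.FS.LongEdge837
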